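import Pool.Agent.Lib.MP_144d21_co.X2.IfaceC

/-!
# MP_144d21_co, project X2: module NUMC (helper24)

The numerical inequalities of case C.
-/

set_option autoImplicit false

namespace Pool.Agent.Xu.X2.H24

open Finset

theorem cc_pos (t : ℕ) : 0 < cc t := by unfold cc; positivity

theorem cc_key (k u v : ℕ) (hk : 1 ≤ k) (hu : k ≤ u) :
    cc (u + v) * (4 / 3 : ℝ) ^ k ≤ cc (v + 1) * (4 / 3) ^ (min k 5) := by
  unfold cc
  have h1 : (4 / 3 : ℝ) ^ k = (4 / 3) ^ (min k 5) * (4 / 3) ^ (k - 5) := by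
    rw [← pow_add]; congr 1; omega
  have h2 : (3 / 4 : ℝ) ^ (u + v - 5) ≤ (3 / 4) ^ ((k - 5) + (v + 1 - 5)) :=
    pow_le_pow_of_le_one (by norm_num) (by norm_num) (by omega)
  have h3 : (3 / 4 : ℝ) ^ (k - 5) * (4 / 3) ^ (k - 5) = 1 := by
    rw [← mul_pow]; norm_num
  rw [h1]
  calc (3 / 4 : ℝ) ^ (u + v - 5) * ((4 / 3) ^ (min k 5) * (4 / 3) ^ (k - 5))
      ≤ (3 / 4) ^ ((k - 5) + (v + 1 - 5)) * ((4 / 3) ^ (min k 5) * (4 / 3) ^ (k - 5)) := by
        gcongr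
    _ = ((3 / 4 : ℝ) ^ (k - 5) * (4 / 3) ^ (k - 5)) *
        ((3 / 4) ^ (v + 1 - 5) * (4 / 3) ^ (min k 5)) := by rw [pow_add]; ring
    _ = (3 / 4) ^ (v + 1 - 5) * (4 / 3) ^ (min k 5) := by rw [h3, one_mul]

theorem cc_step (v : ℕ) : 3 / 4 * cc (v + 1) ≤ cc (v + 2) := by
  unfold cc
  have h : (3 / 4 : ℝ) ^ ((v + 1 - 5) + 1) ≤ (3 / 4) ^ (v + 2 - 5) :=
    pow_le_pow_of_le_one (by norm_num) (by norm_num) (by omega)
  rw [pow_succ] at h
  linarith

/-- `2 ^ k * EE k = (4/3) ^ ((k + 1) / 2)` -/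
theorem two_pow_EE (hE : EesS) (k : ℕ) : (2 : ℝ) ^ k * EE k = (4 / 3) ^ ((k + 1) / 2) := by
  obtain ⟨-, -, -, -, -, -, -, h8, h9⟩ := hE
  rcases Nat.even_or_odd' k with ⟨j, hj | hj⟩
  · subst hj
    rw [h8]; congr 1; omega
  · subst hj
    rw [h9]; congr 1; omega

/-- the four numerical facts -/
theorem num1 (k : ℕ) (hk : 1 ≤ k) : 2 * (4 / 3 : ℝ) ^ (min k 5) ≤ 2 * k + 1 := by
  rcases le_or_gt 5 k with h | h
  · rw [min_eq_right h]
    have : (5 : ℝ) ≤ k := by exact_mod_cast h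
    norm_num
    linarith
  · interval_cases k <;> norm_num

theorem num2 (k m : ℕ) (hk : 1 ≤ k) (hm : 3 ≤ m) (h : 2 * k ≤ m) :
    (4 / 3 : ℝ) ^ (min k 5) ≤ 3 / 4 * (m - 1) ∧
    (4 / 3 : ℝ) ^ (min k 5) ≤ 1 + 3 / 8 * (m - 1) := by
  have hm1 : (3 : ℝ) ≤ m := by exact_mod_cast hm
  have hm2 : (2 : ℝ) * k ≤ m := by exact_mod_cast h
  rcases le_or_gt 5 k with h | h
  · rw [min_eq_right h]
    have : (5 : ℝ) ≤ k := by exact_mod_cast h
    constructor <;> norm_num <;> linarith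
  · interval_cases k <;> push_cast at hm2 <;> constructor <;> norm_num <;> linarith

/-- NUMC -/
theorem numc (hE : EesS) : NumcS := by
  intro a m u v hm hu
  have hE' := hE
  obtain ⟨-, hpos, -, h4, -, -, h7, -, -⟩ := hE'
  have hea := hpos a
  have hea1 := hpos (a + 1)
  have hc1 := cc_pos (v + 1)
  have hc2 := cc_pos (v + 2)
  have hcu := cc_pos (u + v)
  have hm1 : (3 : ℝ) ≤ m := by exact_mod_cast hm
  have hst := cc_step v
  -- exponents
  obtain ⟨k, hk⟩ : ∃ k, k = (m - 1) / 2 := ⟨_, rfl⟩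
  obtain ⟨k', hk'⟩ : ∃ k', k' = m / 2 := ⟨_, rfl⟩
  have e1 : (2 : ℝ) ^ (m - 1) * EE (a + m - 2) ≤ EE a * (2 * (4 / 3) ^ k) := by
    have h := two_pow_EE hE (m - 2)
    rw [show (m - 2 + 1) / 2 = k by omega] at h
    have h' := h7 a (m - 2)
    rw [show a + (m - 2) = a + m - 2 by omega] at h'
    calc (2 : ℝ) ^ (m - 1) * EE (a + m - 2) ≤ 2 ^ (m - 1) * (EE a * EE (m - 2)) := by gcongr
      _ = EE a * (2 * (2 ^ (m - 2) * EE (m - 2))) := by
          rw [show m - 1 = (m - 2) + 1 by omega, pow_succ]; ring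
      _ = _ := by rw [h]
  have e2 : (2 : ℝ) ^ (m - 1) * EE (a + m - 1) ≤ EE a * (4 / 3) ^ k' := by
    have h := two_pow_EE hE (m - 1)
    rw [show (m - 1 + 1) / 2 = k' by omega] at h
    have h' := h7 a (m - 1)
    rw [show a + (m - 1) = a + m - 1 by omega] at h'
    calc (2 : ℝ) ^ (m - 1) * EE (a + m - 1) ≤ 2 ^ (m - 1) * (EE a * EE (m - 1)) := by gcongr
      _ = EE a * (2 ^ (m - 1) * EE (m - 1)) := by ring
      _ = _ := by rw [h]
  have e3 : (2 : ℝ) ^ (m - 1) * EE (a + m) ≤ EE (a + 1) * (4 / 3) ^ k' := by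
    have h := two_pow_EE hE (m - 1)
    rw [show (m - 1 + 1) / 2 = k' by omega] at h
    have h' := h7 (a + 1) (m - 1)
    rw [show a + 1 + (m - 1) = a + m by omega] at h'
    calc (2 : ℝ) ^ (m - 1) * EE (a + m) ≤ 2 ^ (m - 1) * (EE (a + 1) * EE (m - 1)) := by gcongr
      _ = EE (a + 1) * (2 ^ (m - 1) * EE (m - 1)) := by ring
      _ = _ := by rw [h]
  have n1 := num1 k (by omega)
  obtain ⟨n2, n3⟩ := num2 k' m (by omega) hm (by omega)
  have c1 := cc_key k u v (by omega) (by omega)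
  have c2 := cc_key k' u v (by omega) (by omega)
  have hkm : (2 * k + 1 : ℝ) ≤ m := by exact_mod_cast (by omega : 2 * k + 1 ≤ m)
  have h4a := h4 a
  refine ⟨?_, ?_, ?_, ?_⟩
  · calc cc (u + v) * (2 ^ (m - 1) * EE (a + m - 2))
        ≤ cc (u + v) * (EE a * (2 * (4 / 3) ^ k)) := by gcongr
      _ = 2 * EE a * (cc (u + v) * (4 / 3) ^ k) := by ring
      _ ≤ 2 * EE a * (cc (v + 1) * (4 / 3) ^ (min k 5)) := by gcongr
      _ = (2 * (4 / 3) ^ (min k 5)) * (cc (v + 1) * EE a) := by ring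
      _ ≤ m * (cc (v + 1) * EE a) := by
          apply mul_le_mul_of_nonneg_right (by linarith) (by positivity)
  · calc cc (u + v) * (2 ^ (m - 1) * EE (a + m - 1))
        ≤ cc (u + v) * (EE a * (4 / 3) ^ k') := by gcongr
      _ = EE a * (cc (u + v) * (4 / 3) ^ k') := by ring
      _ ≤ EE a * (cc (v + 1) * (4 / 3) ^ (min k' 5)) := by gcongr
      _ = (4 / 3) ^ (min k' 5) * (cc (v + 1) * EE a) := by ring
      _ ≤ (m - 1) * (cc (v + 1) * EE a) := by
          apply mul_le_mul_of_nonneg_right (by linarith) (by positivity)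
  · calc cc (u + v) * (2 ^ (m - 1) * EE (a + m - 1))
        ≤ cc (u + v) * (EE a * (4 / 3) ^ k') := by gcongr
      _ = EE a * (cc (u + v) * (4 / 3) ^ k') := by ring
      _ ≤ EE a * (cc (v + 1) * (4 / 3) ^ (min k' 5)) := by gcongr
      _ = (4 / 3) ^ (min k' 5) * (cc (v + 1) * EE a) := by ring
      _ ≤ (1 + 3 / 8 * (m - 1)) * (cc (v + 1) * EE a) := by
          apply mul_le_mul_of_nonneg_right n3 (by positivity)
      _ = cc (v + 1) * EE a + (m - 1) * ((3 / 4 * cc (v + 1)) * (EE a / 2)) := by ring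
      _ ≤ cc (v + 1) * EE a + (m - 1) * (cc (v + 2) * EE (a + 1)) := by
          have h : (3 / 4 * cc (v + 1)) * (EE a / 2) ≤ cc (v + 2) * EE (a + 1) :=
            mul_le_mul hst (by linarith) (by positivity) hc2.le
          have h' : (0 : ℝ) ≤ m - 1 := by linarith
          nlinarith [mul_le_mul_of_nonneg_left h h']
  · calc cc (u + v) * (2 ^ (m - 1) * EE (a + m))
        ≤ cc (u + v) * (EE (a + 1) * (4 / 3) ^ k') := by gcongr
      _ = EE (a + 1) * (cc (u + v) * (4 / 3) ^ k') := by ring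
      _ ≤ EE (a + 1) * (cc (v + 1) * (4 / 3) ^ (min k' 5)) := by gcongr
      _ = (4 / 3) ^ (min k' 5) * (cc (v + 1) * EE (a + 1)) := by ring
      _ ≤ (3 / 4 * (m - 1)) * (cc (v + 1) * EE (a + 1)) := by
          apply mul_le_mul_of_nonneg_right n2 (by positivity)
      _ = (m - 1) * ((3 / 4 * cc (v + 1)) * EE (a + 1)) := by ring
      _ ≤ (m - 1) * (cc (v + 2) * EE (a + 1)) := by
          have h' : (0 : ℝ) ≤ m - 1 := by linarith
          apply mul_le_mul_of_nonneg_left _ h'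
          apply mul_le_mul_of_nonneg_right hst hea1.le

end Pool.Agent.Xu.X2.H24
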